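import Pool.Agent.Lib.MP_021685_agQ.QN
import Pool.Agent.Lib.MP_021685_agV.Dv

/-!
# Codimension two on the Galois side: the class which decides
-/

set_option autoImplicit false
set_option linter.unusedSectionVars false

namespace Pool.Agent.Lib.MP_021685_agV

open Function Module MP_802513_ag MP_802513_agH MP_802513_agU MP_802513_agS
open scoped TensorProduct

variable {V : Type*} [AddCommGroup V] [Module ℂ V] {L : AddSubgroup V} {γ : HSpace L}
  {c : HEnd L → ℂ}

/-- The extension of a real form to `ℂ ⊗ L`. -/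
theorem exists_extForm (B : V →ₗ[ℝ] V →ₗ[ℝ] ℝ) :
    ∃ ψ : (ℂ ⊗[ℤ] L) →ₗ[ℂ] (ℂ ⊗[ℤ] L) →ₗ[ℂ] ℂ, MP_021685_agQ.IsExtForm L B ψ := by
  let f : L → L →ₗ[ℤ] ℂ := fun x =>
    AddMonoidHom.toIntLinearMap
      { toFun := fun y => ((B x y : ℝ) : ℂ)
        map_zero' := by simp
        map_add' := fun y z => by simp }
  let g : L →ₗ[ℤ] ((ℂ ⊗[ℤ] L) →ₗ[ℂ] ℂ) :=
    AddMonoidHom.toIntLinearMap
      { toFun := fun x => (f x).liftBaseChange ℂ
        map_zero' := by
          refine TensorProduct.AlgebraTensorModule.ext fun a y => ?_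
          rw [LinearMap.liftBaseChange_tmul]
          show a • ((B ((0 : L) : V) y : ℝ) : ℂ) = 0
          simp
        map_add' := fun x x' => by
          refine TensorProduct.AlgebraTensorModule.ext fun a y => ?_
          rw [LinearMap.add_apply, LinearMap.liftBaseChange_tmul, LinearMap.liftBaseChange_tmul,
            LinearMap.liftBaseChange_tmul]
          show a • ((B ((x + x' : L) : V) y : ℝ) : ℂ) =
            a • ((B (x : V) y : ℝ) : ℂ) + a • ((B (x' : V) y : ℝ) : ℂ)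
          rw [AddSubgroup.coe_add, map_add, LinearMap.add_apply, Complex.ofReal_add, smul_add] }
  refine ⟨g.liftBaseChange ℂ, fun x y => ?_⟩
  rw [LinearMap.liftBaseChange_tmul, one_smul]
  show (f x).liftBaseChange ℂ ((1 : ℂ) ⊗ₜ[ℤ] y) = _
  rw [LinearMap.liftBaseChange_tmul, one_smul]
  rfl

/-! ### Comparison with the definitions of `MP_021685_agQ` -/

theorem isTate_iff {n i : ℕ} {θ : CForm L n i} : IsTate γ c θ ↔ MP_021685_agS.IsTate γ c n i θ :=
  Iff.rfl

theorem isComb_iff {C : Family V} {n i : ℕ} {θ : CForm L n i} :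
    IsComb C θ ↔ θ ∈ MP_021685_agS.extF ℂ C n i :=
  Iff.rfl

theorem isHodgeComb_iff {n i : ℕ} {θ : CForm L n i} :
    IsHodgeComb θ ↔ θ ∈ MP_021685_agS.extF ℂ (MP_021685_agQ.hodgeC L) n i :=
  Iff.rfl

theorem endExt_iff {T : Module.End ℂ V} {T' : HEnd L} :
    EndExt T T' ↔ MP_021685_agP.EndExt T T' :=
  Iff.rfl

theorem IsGaloisLie.toQ (h : IsGaloisLie L γ c) : MP_021685_agQ.IsGaloisLie L γ c where
  lie := h.lie
  divisor θ hθ := h.hodge 2 1 θ hθ
  tate θ hθ := h.divisor θ hθ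
  semisimple := h.semisimple
  sen τ := by
    obtain ⟨x, ⟨h1, h2, h3⟩, h4⟩ := h.sen τ
    exact ⟨x, h1, h2, h3, h4⟩

/-- More classes, more combinations. -/
theorem isComb_mono {C C' : Family V} {n i : ℕ} (h : ∀ η ∈ C n i, η ∈ C' n i) {θ : CForm L n i}
    (hθ : IsComb C θ) : IsComb C' θ := by
  refine Submodule.span_mono ?_ hθ
  rintro ξ ⟨η, h1, h2⟩
  exact ⟨η, h η h1, h2⟩

theorem isHodgeComb_of {C : Family V} {n i : ℕ}
    (h : ∀ η ∈ C n i, IsHodgeClass (powLattice L n) i η) {θ : CForm L n i} (hθ : IsComb C θ) :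
    IsHodgeComb θ := by
  refine Submodule.span_mono ?_ hθ
  rintro ξ ⟨η, h1, h2⟩
  exact ⟨η, h η h1, h2⟩

theorem isComb_of {C : Family V} {n i : ℕ}
    (h : ∀ η : RForm V n i, IsHodgeClass (powLattice L n) i η → η ∈ C n i) {θ : CForm L n i}
    (hθ : IsHodgeComb θ) : IsComb C θ := by
  refine Submodule.span_mono ?_ hθ
  rintro ξ ⟨η, h1, h2⟩
  exact ⟨η, h η h1, h2⟩

/-- One Tate class of degree two on `A ^ 4` decides the Mumford-Tate conjecture. -/
theorem exists_decisive (hA : IsAbelianVariety L) (hγ : IsGaloisLie L γ c) :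
    ∃ θ : CForm L 4 2, IsTate γ c θ ∧ (IsHodgeComb θ ↔ TateAreHodge γ c) := by
  obtain ⟨B, hB⟩ := hA.polarized
  obtain ⟨ψ, hψ⟩ := exists_extForm (L := L) B
  obtain ⟨Γ, -, h3⟩ := MP_021685_agQ.mainTate hA hB hψ rfl rfl
  obtain ⟨⟨P, hP⟩, h4⟩ := (h3 γ c).2 hγ.toQ
  obtain ⟨θ, -, h5, h6, -⟩ := h4 P hP
  exact ⟨θ, h5, h6⟩

/-- The Hodge classes of degree `i` on `A ^ n` are in the family, if they are Tate classes and the Tate
classes of this degree are combinations of classes of the family. -/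
theorem hodge_mem_of_tate (hA : IsAbelianVariety L) {C : Family V} (hC : IsHodgeFamily L C)
    (hT : ∀ (n i : ℕ) (θ : CForm L n i), IsHodgeComb θ → IsTate γ c θ) {n i : ℕ} (h : ∀ θ : CForm L n i, IsTate γ c θ → IsComb C θ)
    {η : RForm V n i} (hη : IsHodgeClass (powLattice L n) i η) : η ∈ C n i := by
  obtain ⟨g, b, -, hb⟩ := MP_802513_agS.exists_basis hA.lattice
  obtain ⟨e, he⟩ := MP_021685_agS.exists_latBasis ℂ hb
  exact MP_021685_agP.hodge_mem hC hb he hT h hη

/-- The conclusion for a family which contains all the Hodge classes. -/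
theorem allTate_of_all {C : Family V} (hC : IsHodgeFamily L C)
    (hall : ∀ (n i : ℕ) (η : RForm V n i), IsHodgeClass (powLattice L n) i η → η ∈ C n i)
    {θ : CForm L 4 2} (h6 : IsHodgeComb θ ↔ TateAreHodge γ c) (h : IsComb C θ) :
    AllTate C γ c := fun n _ i _ ξ hξ =>
  isComb_of (hall n i) (h6.1 (isHodgeComb_of (fun _ hη => hC hη) h) n i ξ hξ)

end Pool.Agent.Lib.MP_021685_agV
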